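import Mathlib

/-! # Marked balls of marked groups -/

set_option autoImplicit false

namespace Pool.Agent.H802.MB

open FreeGroup

/-- The normal subgroups of the free group of rank `d`. A marked `d`-generated group is, up to
isomorphism of marked groups, the same as a normal subgroup `N`: the group is `F_d / N`, marked by
the images of the generators. -/
abbrev MG (d : ℕ) : Type := {N : Subgroup (FreeGroup (Fin d)) // N.Normal}

instance (d : ℕ) (N : MG d) : N.1.Normal := N.2

/-- the marked group given by a normal subgroup -/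
abbrev Grp {d : ℕ} (N : MG d) : Type := FreeGroup (Fin d) ⧸ N.1

/-- the element of the marked group given by a word -/
def el {d : ℕ} (N : MG d) (w : FreeGroup (Fin d)) : Grp N := QuotientGroup.mk w

/-- the marking -/
def gen {d : ℕ} (N : MG d) (i : Fin d) : Grp N := el N (of i)

/-- the vertices of the marked ball of radius `n`: the elements of word length at most `n` -/
def Ball {d : ℕ} (n : ℕ) (N : MG d) : Type := {g : Grp N // ∃ w, FreeGroup.norm w ≤ n ∧ el N w = g}

/-- the root -/
def root {d : ℕ} (n : ℕ) (N : MG d) : Ball n N := ⟨1, 1, by simp, rfl⟩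

/-- two marked groups have isomorphic marked balls of radius `n`: there is a bijection of the
vertices which preserves the root and the directed labelled edges `g → g s_i` in both directions -/
def SameBall {d : ℕ} (n : ℕ) (N N' : MG d) : Prop :=
  ∃ φ : Ball n N ≃ Ball n N', φ (root n N) = root n N' ∧
    ∀ (g h : Ball n N) (i : Fin d), g.1 * gen N i = h.1 ↔ (φ g).1 * gen N' i = (φ h).1

/-- the equivalence relation on marked groups -/
def ballSetoid (d n : ℕ) : Setoid (MG d) where
  r := SameBall n
  iseqv :=
    { refl := fun N => ⟨Equiv.refl _, rfl, fun _ _ _ => Iff.rfl⟩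
      symm := by
        rintro N N' ⟨φ, h1, h2⟩
        refine ⟨φ.symm, by rw [← h1, Equiv.symm_apply_apply], fun g h i => ?_⟩
        rw [h2, Equiv.apply_symm_apply, Equiv.apply_symm_apply]
      trans := by
        rintro N N' N'' ⟨φ, h1, h2⟩ ⟨ψ, h3, h4⟩
        refine ⟨φ.trans ψ, ?_, fun g h i => ?_⟩
        · rw [Equiv.trans_apply, h1, h3]
        · rw [h2, h4]
          rfl }

/-- the isomorphism classes of marked balls of radius `n` of marked `d`-generated groups -/
abbrev Classes (d n : ℕ) : Type := Quotient (ballSetoid d n)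

/-- `f_d(n)`: the number of marked balls of radius `n` of all marked `d`-generated groups -/
noncomputable def f (d n : ℕ) : ℕ := Nat.card (Classes d n)

/-- `g_d(n)`: the number of marked balls of radius `n` of finite marked `d`-generated groups -/
noncomputable def g (d n : ℕ) : ℕ :=
  Nat.card {c : Classes d n // ∃ N : MG d, Finite (Grp N) ∧ Quotient.mk (ballSetoid d n) N = c}

/-! ### Words and balls -/

theorem el_mul {d : ℕ} (N : MG d) (v w : FreeGroup (Fin d)) : el N (v * w) = el N v * el N w := rfl

theorem el_eq_one {d : ℕ} (N : MG d) (w : FreeGroup (Fin d)) : el N w = 1 ↔ w ∈ N.1 :=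
  QuotientGroup.eq_one_iff w

theorem el_eq {d : ℕ} (N : MG d) (v w : FreeGroup (Fin d)) : el N v = el N w ↔ v⁻¹ * w ∈ N.1 :=
  QuotientGroup.eq

/-- the vertex given by a list of letters -/
def vtx {d n : ℕ} (N : MG d) (L : List (Fin d × Bool)) (hL : L.length ≤ n) : Ball n N :=
  ⟨el N (FreeGroup.mk L), FreeGroup.mk L, FreeGroup.norm_mk_le.trans hL, rfl⟩

/-- an isomorphism of balls is compatible with words -/
theorem iso_word {d n : ℕ} {N N' : MG d} (φ : Ball n N ≃ Ball n N')
    (h1 : φ (root n N) = root n N')
    (h2 : ∀ (g h : Ball n N) (i : Fin d), g.1 * gen N i = h.1 ↔ (φ g).1 * gen N' i = (φ h).1)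
    (L : List (Fin d × Bool)) (hL : L.length ≤ n) :
    φ (vtx N L hL) = vtx N' L hL := by
  induction L using List.reverseRecOn with
  | nil => exact h1
  | append_singleton L x ih =>
    have hL' : L.length ≤ n := by
      rw [List.length_append, List.length_singleton] at hL
      omega
    have ih' := ih hL'
    obtain ⟨i, b⟩ := x
    have hmk : FreeGroup.mk (L ++ [(i, b)]) = FreeGroup.mk L * FreeGroup.mk [(i, b)] := by
      rw [FreeGroup.mul_mk]
    apply Subtype.ext
    cases b with
    | true =>
      have h3 := (h2 (vtx N L hL') (vtx N (L ++ [(i, true)]) hL) i).1 (by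
        change el N (FreeGroup.mk L) * gen N i = el N (FreeGroup.mk (L ++ [(i, true)]))
        rw [hmk]
        rfl)
      rw [ih'] at h3
      rw [← h3]
      change el N' (FreeGroup.mk L) * gen N' i = el N' (FreeGroup.mk (L ++ [(i, true)]))
      rw [hmk]
      rfl
    | false =>
      have hinv : FreeGroup.mk [(i, false)] = (of i)⁻¹ := rfl
      have h3 := (h2 (vtx N (L ++ [(i, false)]) hL) (vtx N L hL') i).1 (by
        change el N (FreeGroup.mk (L ++ [(i, false)])) * gen N i = el N (FreeGroup.mk L)
        rw [hmk, hinv]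
        change el N (FreeGroup.mk L * (of i)⁻¹ * of i) = _
        rw [inv_mul_cancel_right])
      rw [ih'] at h3
      have h4 : (vtx N' (L ++ [(i, false)]) hL).1 =
          (vtx N' L hL').1 * (gen N' i)⁻¹ := by
        change el N' (FreeGroup.mk (L ++ [(i, false)])) = el N' (FreeGroup.mk L) * (gen N' i)⁻¹
        rw [hmk, hinv]
        rfl
      rw [h4, ← h3, mul_inv_cancel_right]

theorem sameBall_mem {d n : ℕ} {N N' : MG d} (h : SameBall n N N') (w : FreeGroup (Fin d))
    (hw : FreeGroup.norm w ≤ n) : w ∈ N.1 ↔ w ∈ N'.1 := by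
  obtain ⟨φ, h1, h2⟩ := h
  have h3 := iso_word φ h1 h2 w.toWord hw
  have h4 : ∀ M : MG d, vtx M w.toWord hw = root n M ↔ w ∈ M.1 := by
    intro M
    rw [← el_eq_one]
    constructor
    · intro h
      have h5 := congrArg Subtype.val h
      change el M (FreeGroup.mk w.toWord) = 1 at h5
      rwa [FreeGroup.mk_toWord] at h5
    · intro h
      apply Subtype.ext
      change el M (FreeGroup.mk w.toWord) = 1
      rwa [FreeGroup.mk_toWord]
  rw [← h4 N, ← h4 N', ← h3, ← h1, φ.apply_eq_iff_eq]

/-- marked groups with the same relations of length at most `2n+1` have isomorphic balls -/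
theorem sameBall_of {d n : ℕ} {N N' : MG d}
    (h : ∀ w : FreeGroup (Fin d), FreeGroup.norm w ≤ 2 * n + 1 → (w ∈ N.1 ↔ w ∈ N'.1)) :
    SameBall n N N' := by
  have hinv : ∀ v w : FreeGroup (Fin d), FreeGroup.norm v ≤ n → FreeGroup.norm w ≤ n →
      (el N v = el N w ↔ el N' v = el N' w) := by
    intro v w hv hw
    rw [el_eq, el_eq]
    apply h
    have h1 := FreeGroup.norm_mul_le v⁻¹ w
    rw [FreeGroup.norm_inv_eq] at h1
    omega
  have hedge : ∀ (v w : FreeGroup (Fin d)) (i : Fin d), FreeGroup.norm v ≤ n →
      FreeGroup.norm w ≤ n → (el N v * gen N i = el N w ↔ el N' v * gen N' i = el N' w) := by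
    intro v w i hv hw
    change el N (v * of i) = el N w ↔ el N' (v * of i) = el N' w
    rw [el_eq, el_eq]
    apply h
    have h1 := FreeGroup.norm_mul_le (v * of i)⁻¹ w
    rw [FreeGroup.norm_inv_eq] at h1
    have h2 := FreeGroup.norm_mul_le v (of i)
    rw [FreeGroup.norm_of] at h2
    omega
  let φ : Ball n N → Ball n N' := fun g => ⟨el N' g.2.choose, g.2.choose, g.2.choose_spec.1, rfl⟩
  have hφ : ∀ (w : FreeGroup (Fin d)) (hw : FreeGroup.norm w ≤ n) (g : Ball n N),
      el N w = g.1 → (φ g).1 = el N' w := by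
    intro w hw g hg
    exact (hinv _ _ g.2.choose_spec.1 hw).1 (g.2.choose_spec.2.trans hg.symm)
  have hbij : Function.Bijective φ := by
    constructor
    · intro a b hab
      obtain ⟨v, hv, hva⟩ := a.2
      obtain ⟨w, hw, hwb⟩ := b.2
      have h1 := hφ v hv a hva
      have h2 := hφ w hw b hwb
      apply Subtype.ext
      rw [← hva, ← hwb]
      refine (hinv v w hv hw).2 ?_
      rw [← h1, ← h2, hab]
    · rintro ⟨_, w, hw, rfl⟩
      refine ⟨⟨el N w, w, hw, rfl⟩, ?_⟩
      apply Subtype.ext
      exact hφ w hw _ rfl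
  refine ⟨Equiv.ofBijective φ hbij, ?_, fun a b i => ?_⟩
  · apply Subtype.ext
    exact hφ 1 (by simp) (root n N) rfl
  · obtain ⟨v, hv, hva⟩ := a.2
    obtain ⟨w, hw, hwb⟩ := b.2
    change a.1 * gen N i = b.1 ↔ (φ a).1 * gen N' i = (φ b).1
    rw [hφ v hv a hva, hφ w hw b hwb, ← hva, ← hwb]
    exact hedge v w i hv hw

/-! ### The upper bound -/

/-- the words of length at most `m` -/
abbrev Wd (d m : ℕ) : Type := {w : FreeGroup (Fin d) // FreeGroup.norm w ≤ m}

/-- a code of a word -/
def code {d m : ℕ} (w : Wd d m) : Fin m → Option (Fin d × Bool) := fun i => w.1.toWord[(i : ℕ)]?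

theorem code_inj {d m : ℕ} : Function.Injective (code (d := d) (m := m)) := by
  intro v w h
  apply Subtype.ext
  apply FreeGroup.toWord_injective
  refine List.ext_getElem? fun i => ?_
  by_cases hi : i < m
  · exact congrFun h ⟨i, hi⟩
  · have h1 : v.1.toWord.length ≤ m := v.2
    have h2 : w.1.toWord.length ≤ m := w.2
    rw [List.getElem?_eq_none (by omega), List.getElem?_eq_none (by omega)]

instance (d m : ℕ) : Finite (Wd d m) := Finite.of_injective _ code_inj

theorem card_Wd (d m : ℕ) : Nat.card (Wd d m) ≤ (2 * d + 1) ^ m := by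
  refine (Nat.card_le_card_of_injective _ code_inj).trans (le_of_eq ?_)
  rw [Nat.card_eq_fintype_card, Fintype.card_fun, Fintype.card_option, Fintype.card_prod,
    Fintype.card_fin, Fintype.card_fin, Fintype.card_bool, mul_comm]

/-- the relations of bounded length of a class -/
noncomputable def rel {d n : ℕ} (c : Classes d n) : Set (Wd d (2 * n + 1)) :=
  {w | w.1 ∈ (Quotient.out c).1}

theorem rel_inj {d n : ℕ} : Function.Injective (rel (d := d) (n := n)) := by
  intro c c' h
  rw [← Quotient.out_eq c, ← Quotient.out_eq c']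
  apply Quotient.sound
  refine sameBall_of fun w hw => ?_
  exact Set.ext_iff.1 h ⟨w, hw⟩

instance (d n : ℕ) : Finite (Classes d n) := Finite.of_injective _ rel_inj

theorem f_le (d n : ℕ) : f d n ≤ 2 ^ (2 * d + 1) ^ (2 * n + 1) := by
  unfold f
  refine (Nat.card_le_card_of_injective _ rel_inj).trans ?_
  have h1 : Nat.card (Set (Wd d (2 * n + 1))) = 2 ^ Nat.card (Wd d (2 * n + 1)) := by
    have := Fintype.ofFinite (Wd d (2 * n + 1))
    rw [Nat.card_eq_fintype_card, Fintype.card_set, Nat.card_eq_fintype_card]
  rw [h1]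
  exact Nat.pow_le_pow_right (by norm_num) (card_Wd _ _)

theorem g_le_f (d n : ℕ) : g d n ≤ f d n :=
  Nat.card_le_card_of_injective _ Subtype.val_injective

end Pool.Agent.H802.MB
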