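import Pool.Agent.H802.MB.Defs

/-! # Finite marked groups which realize all patterns of relations -/

set_option autoImplicit false

namespace Pool.Agent.H802.MB

open FreeGroup Equiv

section perm

variable (k : ℕ) (J : Set (Fin k → Bool))

/-- positions -/
abbrev Pos : Type := ZMod (2 * k + 3)

/-- configurations of the lamps and layers -/
abbrev Lay : Type := (Fin k → Bool) × Fin 4

/-- points -/
abbrev Pt : Type := Pos k × Lay k

/-- the first three-cycle -/
abbrev al : Perm (Fin 4) := swap 0 1 * swap 1 2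

/-- the second three-cycle -/
abbrev be : Perm (Fin 4) := swap 1 2 * swap 2 3

/-- the move -/
def mv : Perm (Pt k) := (Equiv.addRight (1 : Pos k)).prodCongr (Equiv.refl _)

theorem mv_apply (p : Pos k) (z : Lay k) : mv k (p, z) = (p + 1, z) := rfl

variable {k}

/-- switching a lamp -/
def tog (j : Fin k) : Perm (Lay k) :=
  Equiv.prodCongr (Function.Involutive.toPerm (fun f : Fin k → Bool => Function.update f j (!f j))
    (by
      intro f
      funext i
      by_cases h : i = j
      · subst h
        simp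
      · simp [h])) (Equiv.refl _)

theorem tog_apply (j : Fin k) (f : Fin k → Bool) (l : Fin 4) :
    tog j (f, l) = (Function.update f j (!f j), l) := rfl

theorem tog_sq (j : Fin k) : tog j ^ 2 = 1 := by
  ext z : 1
  rw [pow_two]
  obtain ⟨f, l⟩ := z
  change tog j (tog j (f, l)) = (f, l)
  rw [tog_apply, tog_apply]
  refine Prod.ext ?_ rfl
  funext i
  by_cases h : i = j
  · subst h
    simp
  · simp [h]

open Classical in
/-- permutation of the layers over a set of configurations -/
noncomputable def lay (S : Set (Fin k → Bool)) (c : Perm (Fin 4)) : Perm (Lay k) :=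
  Equiv.prodShear (Equiv.refl _) fun f => if f ∈ S then c else 1

open Classical in
theorem lay_apply (S : Set (Fin k → Bool)) (c : Perm (Fin 4)) (f : Fin k → Bool) (l : Fin 4) :
    lay S c (f, l) = (f, if f ∈ S then c l else l) := by
  change (f, (if f ∈ S then c else 1 : Perm (Fin 4)) l) = _
  by_cases h : f ∈ S
  · rw [if_pos h, if_pos h]
  · rw [if_neg h, if_neg h]
    rfl

theorem lay_mem {S : Set (Fin k → Bool)} (c : Perm (Fin 4)) {f : Fin k → Bool} (h : f ∈ S)
    (l : Fin 4) : lay S c (f, l) = (f, c l) := by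
  rw [lay_apply, if_pos h]

theorem lay_not {S : Set (Fin k → Bool)} (c : Perm (Fin 4)) {f : Fin k → Bool} (h : f ∉ S)
    (l : Fin 4) : lay S c (f, l) = (f, l) := by
  rw [lay_apply, if_neg h]

open Classical in
/-- the action of the second generator over a position -/
noncomputable def act (p : Pos k) : Perm (Lay k) :=
  if p = 0 then lay {fun _ => false} al
  else if p = ((k + 1 : ℕ) : Pos k) then lay J be
  else if h : ∃ j : Fin k, p = (((j : ℕ) + 1 : ℕ) : Pos k) then tog h.choose else 1

/-- the second generator -/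
noncomputable def sw : Perm (Pt k) := Equiv.prodShear (Equiv.refl _) (act J)

theorem sw_apply (p : Pos k) (z : Lay k) : sw J (p, z) = (p, act J p z) := rfl

theorem cast_ne {a b : ℕ} (ha : a < 2 * k + 3) (hb : b < 2 * k + 3) (h : a ≠ b) :
    ((a : ℕ) : Pos k) ≠ ((b : ℕ) : Pos k) := by
  intro h1
  rw [ZMod.natCast_eq_natCast_iff'] at h1
  rw [Nat.mod_eq_of_lt ha, Nat.mod_eq_of_lt hb] at h1
  exact h h1

theorem cast_ne_zero {a : ℕ} (ha : a < 2 * k + 3) (h : a ≠ 0) : ((a : ℕ) : Pos k) ≠ 0 := by
  have := cast_ne (k := k) ha (b := 0) (by omega) h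
  rwa [Nat.cast_zero] at this

theorem act_zero : act J 0 = lay {fun _ => false} al := by
  unfold act
  rw [if_pos rfl]

theorem act_top : act J ((k + 1 : ℕ) : Pos k) = lay J be := by
  unfold act
  rw [if_neg (cast_ne_zero (by omega) (by omega)), if_pos rfl]

theorem act_lamp (j : Fin k) : act J (((j : ℕ) + 1 : ℕ) : Pos k) = tog j := by
  have hj := j.2
  unfold act
  rw [if_neg (cast_ne_zero (by omega) (by omega)),
    if_neg (cast_ne (by omega) (by omega) (by omega))]
  have h : ∃ i : Fin k, (((j : ℕ) + 1 : ℕ) : Pos k) = (((i : ℕ) + 1 : ℕ) : Pos k) := ⟨j, rfl⟩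
  rw [dif_pos h]
  congr 1
  have h1 := h.choose_spec
  by_contra hne
  have h2 := h.choose.2
  refine cast_ne (k := k) (a := (j : ℕ) + 1) (b := (h.choose : ℕ) + 1) (by omega) (by omega) ?_ h1
  intro h3
  exact hne (Fin.ext (by omega))

theorem act_sq {p : Pos k} (h0 : p ≠ 0) (h1 : p ≠ ((k + 1 : ℕ) : Pos k)) : act J p ^ 2 = 1 := by
  unfold act
  rw [if_neg h0, if_neg h1]
  split_ifs
  · exact tog_sq _
  · exact one_pow 2

/-- the support of the square of the second generator -/
def Sup (z : Pt k) : Prop :=
  (z.1 = 0 ∧ z.2.1 = fun _ => false) ∨ (z.1 = ((k + 1 : ℕ) : Pos k) ∧ z.2.1 ∈ J)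

theorem sw_sq_apply (p : Pos k) (z : Lay k) : (sw J ^ 2) (p, z) = (p, (act J p ^ 2) z) := by
  rw [pow_two, pow_two]
  rfl

theorem sw_sq_fix {z : Pt k} (hz : ¬ Sup J z) : (sw J ^ 2) z = z := by
  obtain ⟨p, f, l⟩ := z
  rw [sw_sq_apply]
  refine Prod.ext rfl ?_
  unfold Sup at hz
  simp only [not_or, not_and] at hz
  by_cases h0 : p = 0
  · subst h0
    rw [act_zero, pow_two]
    change lay _ al (lay _ al (f, l)) = (f, l)
    have h1 : f ∉ ({fun _ => false} : Set (Fin k → Bool)) := hz.1 rfl
    have e1 := lay_not al h1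
    rw [e1, e1]
  · by_cases h1 : p = ((k + 1 : ℕ) : Pos k)
    · rw [h1, act_top, pow_two]
      change lay _ be (lay _ be (f, l)) = (f, l)
      have h2 : f ∉ J := hz.2 h1
      have e1 := lay_not be h2
      rw [e1, e1]
    · rw [act_sq J h0 h1]
      rfl

/-- the path -/
noncomputable def qq (ε : Fin k → Bool) : ℕ → Perm (Pt k)
  | 0 => mv k
  | j + 1 => mv k * (if h : j < k then (if ε ⟨j, h⟩ then sw J else 1) else 1) * qq ε j

theorem qq_pos (ε : Fin k → Bool) (j : ℕ) (z : Pt k) :
    (qq J ε j z).1 = z.1 + ((j + 1 : ℕ) : Pos k) := by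
  induction j with
  | zero => simp [qq, mv]
  | succ j ih =>
    have h1 : qq J ε (j + 1) z = mv k ((if h : j < k then (if ε ⟨j, h⟩ then sw J else 1) else 1 :
        Perm (Pt k)) (qq J ε j z)) := rfl
    have h2 : ∀ w : Pt k, ((if h : j < k then (if ε ⟨j, h⟩ then sw J else 1) else 1 :
        Perm (Pt k)) w).1 = w.1 := by
      intro w
      split_ifs <;> rfl
    rw [h1]
    change ((if h : j < k then (if ε ⟨j, h⟩ then sw J else 1) else 1 :
        Perm (Pt k)) (qq J ε j z)).1 + 1 = _
    rw [h2, ih]
    push_cast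
    ring

theorem qq_start (ε : Fin k → Bool) (l : Fin 4) (j : ℕ) (hj : j ≤ k) :
    qq J ε j ((0, (fun _ => false), l) : Pt k) =
      (((j + 1 : ℕ) : Pos k), (fun i : Fin k => if (i : ℕ) < j then ε i else false), l) := by
  induction j with
  | zero =>
    change mv k ((0, (fun _ => false), l) : Pt k) = _
    rw [mv_apply]
    simp
  | succ j ih =>
    have h1 : qq J ε (j + 1) ((0, (fun _ => false), l) : Pt k) = mv k ((if h : j < k then
        (if ε ⟨j, h⟩ then sw J else 1) else 1 : Perm (Pt k))
        (qq J ε j ((0, (fun _ => false), l) : Pt k))) := rfl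
    have hjk : j < k := by omega
    rw [h1, ih (by omega), dif_pos hjk]
    by_cases hε : ε ⟨j, hjk⟩ = true
    · rw [if_pos hε, sw_apply]
      have h2 := act_lamp J ⟨j, hjk⟩
      simp only at h2
      rw [h2, tog_apply, mv_apply]
      refine Prod.ext (by push_cast; ring) (Prod.ext ?_ rfl)
      funext i
      simp only
      by_cases hi : i = ⟨j, hjk⟩
      · subst hi
        simp [hε]
      · rw [Function.update_of_ne hi]
        have h3 : (i : ℕ) ≠ j := fun h => hi (Fin.ext h)
        by_cases h4 : (i : ℕ) < j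
        · rw [if_pos h4, if_pos (by omega)]
        · rw [if_neg h4, if_neg (by omega)]
    · rw [if_neg hε, Perm.one_apply, mv_apply]
      refine Prod.ext (by push_cast; ring) (Prod.ext ?_ rfl)
      funext i
      simp only
      by_cases h4 : (i : ℕ) < j
      · rw [if_pos h4, if_pos (by omega)]
      · rw [if_neg h4]
        by_cases h5 : (i : ℕ) < j + 1
        · rw [if_pos h5]
          have h6 : i = ⟨j, hjk⟩ := Fin.ext (by
            change (i : ℕ) = j
            omega)
          rw [h6]
          exact (Bool.eq_false_iff.2 hε).symm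
        · rw [if_neg h5]

/-- the commutator -/
noncomputable def wd (ε : Fin k → Bool) : Perm (Pt k) :=
  sw J ^ 2 * ((qq J ε k)⁻¹ * sw J ^ 2 * qq J ε k) * (sw J ^ 2)⁻¹ *
    ((qq J ε k)⁻¹ * sw J ^ 2 * qq J ε k)⁻¹

theorem al_be : ∃ l : Fin 4, (al ^ 2) ((be ^ 2) l) ≠ (be ^ 2) ((al ^ 2) l) := by decide

theorem wd_eq_one_iff (ε : Fin k → Bool) : wd J ε = 1 ↔ ε ∉ J := by
  set c := (qq J ε k)⁻¹ * sw J ^ 2 * qq J ε k with hc
  have hcomm : wd J ε = 1 ↔ sw J ^ 2 * c = c * sw J ^ 2 := by
    unfold wd
    rw [← hc, mul_inv_eq_one, mul_inv_eq_iff_eq_mul]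
  rw [hcomm]
  have hq : ∀ l, qq J ε k ((0, (fun _ => false), l) : Pt k) = (((k + 1 : ℕ) : Pos k), ε, l) := by
    intro l
    rw [qq_start J ε l k le_rfl]
    refine Prod.ext rfl (Prod.ext ?_ rfl)
    funext i
    simp only
    rw [if_pos i.2]
  constructor
  · intro h hJ
    obtain ⟨l, hl⟩ := al_be
    have h1 : ∀ l, (sw J ^ 2) ((0, (fun _ => false), l) : Pt k) =
        (0, (fun _ => false), (al ^ 2) l) := by
      intro l
      rw [sw_sq_apply, act_zero, pow_two, pow_two]
      change (0, lay _ al (lay _ al ((fun _ => false), l))) = _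
      have h2 : (fun _ => false) ∈ ({fun _ => false} : Set (Fin k → Bool)) := rfl
      have e1 := lay_mem al h2
      rw [e1, e1]
      rfl
    have h3 : ∀ l, c ((0, (fun _ => false), l) : Pt k) = (0, (fun _ => false), (be ^ 2) l) := by
      intro l
      rw [hc]
      change (qq J ε k)⁻¹ ((sw J ^ 2) (qq J ε k (0, (fun _ => false), l))) = _
      rw [hq, sw_sq_apply, act_top, pow_two]
      have h4 : (lay J be * lay J be) (ε, l) = (ε, (be ^ 2) l) := by
        change lay _ be (lay _ be (ε, l)) = _
        have e1 := lay_mem be hJ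
        rw [e1, e1, pow_two]
        rfl
      rw [h4, Perm.inv_eq_iff_eq, hq]
    have h5 := congrArg (fun σ : Perm (Pt k) => σ (0, (fun _ => false), l)) h
    change (sw J ^ 2) (c (0, (fun _ => false), l)) = c ((sw J ^ 2) (0, (fun _ => false), l)) at h5
    rw [h3, h1, h1, h3] at h5
    exact hl (congrArg (fun z : Pt k => z.2.2) h5)
  · intro hJ
    have hdisj : Perm.Disjoint (sw J ^ 2) c := by
      intro z
      by_cases hz : Sup J z
      · right
        have hz2 : ¬ Sup J (qq J ε k z) := by
          intro h2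
          have hp := qq_pos J ε k z
          obtain ⟨p, f, l⟩ := z
          simp only at hp
          rcases hz with ⟨h3, h4⟩ | ⟨h3, h4⟩
          · simp only at h3 h4
            subst h3
            subst h4
            rw [hq] at h2
            rcases h2 with ⟨h5, -⟩ | ⟨-, h6⟩
            · exact cast_ne_zero (k := k) (by omega) (by omega) h5
            · exact hJ h6
          · simp only at h3 h4
            have h5 : (qq J ε k (p, f, l)).1 = ((2 * k + 2 : ℕ) : Pos k) := by
              rw [hp, h3]
              push_cast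
              ring
            rcases h2 with ⟨h6, -⟩ | ⟨h6, -⟩
            · rw [h5] at h6
              exact cast_ne_zero (k := k) (by omega) (by omega) h6
            · rw [h5] at h6
              exact cast_ne (k := k) (by omega) (by omega) (by omega) h6
        rw [hc]
        change (qq J ε k)⁻¹ ((sw J ^ 2) (qq J ε k z)) = z
        rw [sw_sq_fix J hz2, Perm.inv_eq_iff_eq]
      · left
        exact sw_sq_fix J hz
    exact hdisj.commute

end perm

end Pool.Agent.H802.MB
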